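import Pool.Agent.Lib.MP_72cd34_co.Proof

/-!
# The number of inequivalent abelian squares is not `O(n ^ (3/2))`

For a word `w` let `N(w)` be the number of distinct Parikh vectors of abelian squares that occur
as factors of `w`.  For every real `α < log 27 / log (27/4) = 1.7259…` and every constant `C` there
is a *binary* word `w` with `N(w) > C * |w| ^ α`.  The case `α = 3/2` refutes the conjectured
bound `N(w) ≤ C * n ^ (3/2)`.
-/

set_option autoImplicit false

namespace Pool.Agent.Results.MP_72cd34_co.BinaryWords

open Pool.Agent.Lib.MP_72cd34_co

/-- **Main theorem.**  For every real `α < log 27 / log (27/4) = 1.7259…` and every constant `C`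
there is a binary word `w` containing more than `C * |w| ^ α` pairwise inequivalent abelian
squares.  For `α = 3/2` this refutes the conjectured bound `N(w) ≤ C * |w| ^ (3/2)`. -/
theorem result (α : ℝ) (hα : α < Real.log 27 / Real.log (27 / 4)) (C : ℝ) :
    ∃ w : List Bool, C * (w.length : ℝ) ^ α < numSquareClasses w :=
  main_binary α hα C

end Pool.Agent.Results.MP_72cd34_co.BinaryWords
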